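import Mathlib
import Pool.Agent.TH804.MS4

/-!
# Large values of zeta repel zeros and small values; density criteria for the Lindelöf hypothesis

Write `Z t = |ζ(1/2 + it)|`.  The mean number of zeros of `ζ` with ordinates in `[T, T + r]` is
`(r / 2π) log T`.

**Large values.**  Let `Z T = T^κ ≥ 1` with `T` large.  At bounded distance from `T` there is `T₀` with
`Z T₀ ≥ Z T / 2` such that
* (gap) `|ζ(1/2 + it)| ≥ T^(-ε) Z T` for `|t - T₀| ≤ π / ((1 + ε - 4κ) log T)`, an interval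
  of the critical line, free of zeros, whose length is `1 / (1 - 4κ + ε)` times the mean spacing of the zeros;
* (few zeros) for all `R ≤ 1/2`, `∑ log (R / |ρ - s₀|) ≤ (R / π) (1 + ε - 4κ) log T`, sum over the zeros
  `ρ` (with multiplicities) in the disc of radius `R` about `s₀ = 1/2 + iT₀`.  (Zeros on the critical line of the
  mean density would give `(R / π) log T`.)
* (few small values) the same bound, up to `+ 1`, for every set of points `s` of the disc with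
  `|ζ(s)| ≤ T^(-ε) Z T` and ordinates separated by `η / log T`, if `R ≤ ε η / 32`.

**Density criteria.**  Let `θ > 0`.  Suppose that for every `ε > 0` there are `η > 0` and arbitrarily small
`r > 0` such that, for all large `T`, one can find at least `1/θ` times `(r / 2π) log T` points in the box
`|Re s - 1/2| ≤ r`, `T ≤ Im s ≤ T + r`, with ordinates separated by `η / log T`, at which `|ζ(s)| ≤ T^(κ + ε)`.
Then `ζ(1/2 + it) = O(t^(μ + ε))` with `μ = max(κ, (1 - 1/θ) / 4)`.  For `θ ≤ 1` (also for `κ = 0` and all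
`θ > 1`) this is an equivalence; so the Lindelöf hypothesis holds if and only if, in all short intervals, there
are as many separated points with `|ζ| ≤ T^ε` as there are zeros on average.

**Zeros.**  If for arbitrarily small `r > 0` and all large `T` the box `|Re s - 1/2| ≤ r`,
`T ≤ Im s < T + r` contains at least `1 - δ` times `(r / 2π) log T` zeros, counted with multiplicities, then
`ζ(1/2 + it) = O(t^(δ / 4 + ε))`.

Proof.  By the functional equation and the three lines theorem, `ζ(s₀ + z)` times `T^(z/2)` and a Gaussian factor is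
at most `M exp(τ |Re z|)` near a (weighted) maximum `M ≥ Z T` on the critical line, where
`2 τ = (1 - 4κ + O(ε)) log T`.  Jensen's formula at `s₀` gives the law for the zeros (the mean of `|Re z|` on the circle
of radius `R` is `2R/π`).  For small values one subtracts the interpolation polynomial, which is small because the
product of the differences of separated points is not too small; for the gap one uses a local form of the sampling
inequality of Duffin and Schaeffer (`W587.PL.LS`).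
-/

set_option autoImplicit false

open Filter Topology

namespace Pool.Agent.Results.MP_4e5e8a_nt.DensityCriterion

/-- `|ζ(1/2 + it)|` -/
noncomputable def Z (t : ℝ) : ℝ := ‖riemannZeta (1 / 2 + t * Complex.I)‖

/-- `|ζ(1/2 + it)| = O((1 + |t|)^(κ + ε))` for every `ε > 0`; for `κ = 0` this is the Lindelöf hypothesis. -/
def Exponent (κ : ℝ) : Prop := ∀ ε : ℝ, 0 < ε → ∃ C : ℝ, ∀ t : ℝ, Z t ≤ C * (1 + |t|) ^ (κ + ε)

/-- For every `ε > 0` there are `η > 0` and arbitrarily small `r > 0` such that for all large `T` there are at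
least `(1/θ) (r / 2π) log T` points `s` with `|Re s - 1/2| ≤ r`, `T ≤ Im s ≤ T + r` and `|ζ(s)| ≤ T^(κ + ε)`, the
ordinates of any two of which differ by at least `η / log T`. -/
def Dense (θ κ : ℝ) : Prop := ∀ ε : ℝ, 0 < ε → ∃ η : ℝ, 0 < η ∧ ∀ r₀ : ℝ, 0 < r₀ →
  ∃ r T₁ : ℝ, 0 < r ∧ r ≤ r₀ ∧ ∀ T : ℝ, T₁ ≤ T → ∃ S : Finset ℂ,
    (∀ s ∈ S, |s.re - 1 / 2| ≤ r ∧ T ≤ s.im ∧ s.im ≤ T + r ∧ ‖riemannZeta s‖ ≤ T ^ (κ + ε)) ∧
    (∀ s ∈ S, ∀ s' ∈ S, s ≠ s' → η / Real.log T ≤ |s.im - s'.im|) ∧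
    r * Real.log T / (2 * Real.pi * θ) ≤ S.card

/-- There are arbitrarily small `r > 0` such that for all large `T` the box `|Re s - 1/2| ≤ r`,
`T ≤ Im s < T + r` contains at least `(1 - δ) (r / 2π) log T` zeros of zeta, counted with multiplicities. -/
def ZeroDense (δ : ℝ) : Prop := ∀ r₀ : ℝ, 0 < r₀ → ∃ r T₁ : ℝ, 0 < r ∧ r ≤ r₀ ∧
  ∀ T : ℝ, T₁ ≤ T → ∃ S : Finset ℂ,
    (∀ s ∈ S, |s.re - 1 / 2| ≤ r ∧ T ≤ s.im ∧ s.im < T + r) ∧
    (1 - δ) * (r * Real.log T / (2 * Real.pi)) ≤ ∑ s ∈ S, (analyticOrderNatAt riemannZeta s : ℝ)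

/-- `(1 + ε) log T - 4 log |ζ(1/2 + iT)|` -/
noncomputable def D (ε T : ℝ) : ℝ := (1 + ε) * Real.log T - 4 * Real.log (Z T)

/-- The law for large values: the three assertions of the introduction. -/
def LargeValueLaw : Prop := ∀ ε : ℝ, 0 < ε → ε ≤ 1 → ∃ W T₁ : ℝ, ∀ T : ℝ, T₁ ≤ T → 1 ≤ Z T →
  0 < D ε T ∧ ∃ T₀ : ℝ, |T₀ - T| ≤ W ∧ Z T ≤ 2 * Z T₀ ∧
    (∀ t : ℝ, |t - T₀| ≤ Real.pi / D ε T → T ^ (-ε) * Z T ≤ Z t) ∧
    (∀ R : ℝ, 0 < R → R ≤ 1 / 2 → ∀ S : Finset ℂ,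
      (∀ s ∈ S, ‖s - (1 / 2 + T₀ * Complex.I)‖ ≤ R) →
      ∑ s ∈ S, (analyticOrderNatAt riemannZeta s : ℝ) *
        Real.log (R / ‖s - (1 / 2 + T₀ * Complex.I)‖) ≤ R / Real.pi * D ε T) ∧
    ∀ η R : ℝ, 0 < η → η ≤ 1 → 0 < R → R ≤ ε * η / 32 → ∀ S : Finset ℂ,
      (∀ s ∈ S, ‖s - (1 / 2 + T₀ * Complex.I)‖ ≤ R) →
      (∀ s ∈ S, ‖riemannZeta s‖ ≤ T ^ (-ε) * Z T) →
      (∀ s ∈ S, ∀ s' ∈ S, s ≠ s' → η / Real.log T ≤ |s.im - s'.im|) →
      ∑ s ∈ S, Real.log (R / ‖s - (1 / 2 + T₀ * Complex.I)‖) ≤ R / Real.pi * D ε T + 1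

theorem largeValueLaw : LargeValueLaw := by
  intro ε hε hε1
  obtain ⟨W, T₁, _, _, h⟩ := Pool.Agent.TH804.MS.large_zeta hε hε1
  exact ⟨W, T₁, h⟩

theorem exponent_mono {κ κ' : ℝ} (h : κ ≤ κ') (hE : Exponent κ) : Exponent κ' := by
  intro ε hε
  obtain ⟨C, hC⟩ := hE ε hε
  refine ⟨|C|, fun t => (hC t).trans ?_⟩
  have h1 : 1 ≤ 1 + |t| := by linarith [abs_nonneg t]
  calc C * (1 + |t|) ^ (κ + ε) ≤ |C| * (1 + |t|) ^ (κ + ε) :=
        mul_le_mul_of_nonneg_right (le_abs_self C) (by positivity)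
    _ ≤ |C| * (1 + |t|) ^ (κ' + ε) := mul_le_mul_of_nonneg_left
        (Real.rpow_le_rpow_of_exponent_le h1 (by linarith)) (abs_nonneg C)

theorem exponent_closed {κ : ℝ} (h : ∀ κ' : ℝ, κ < κ' → Exponent κ') : Exponent κ := by
  intro ε hε
  obtain ⟨C, hC⟩ := h (κ + ε / 2) (by linarith) (ε / 2) (by linarith)
  exact ⟨C, fun t => by rw [show κ + ε = κ + ε / 2 + ε / 2 by ring]; exact hC t⟩

theorem exponent_of_dense {θ κ : ℝ} (hθ : 0 < θ) (hκ : 0 ≤ κ) (hD : Dense θ κ) :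
    Exponent (max κ ((1 - 1 / θ) / 4)) := Pool.Agent.TH804.MS.exponent_of_dense hθ hκ hD

theorem dense_of_exponent {θ κ : ℝ} (hθ : 0 < θ) (hκ : 0 ≤ κ) (hE : Exponent κ) : Dense θ κ :=
  Pool.Agent.TH804.MS.dense_of_exponent hθ hκ hE

theorem exponent_of_zeros {δ : ℝ} (hδ0 : 0 ≤ δ) (hδ1 : δ ≤ 1) (hD : ZeroDense δ) : Exponent (δ / 4) :=
  Pool.Agent.TH804.MS.exponent_of_zeros hδ0 hδ1 hD

/-- **Large values repel zeros and small values; density criteria for the Lindelöf hypothesis.** -/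
theorem result :
    LargeValueLaw ∧
    (∀ θ κ : ℝ, 0 < θ → 0 ≤ κ → Dense θ κ → Exponent (max κ ((1 - 1 / θ) / 4))) ∧
    (∀ θ κ : ℝ, 0 < θ → θ ≤ 1 → 0 ≤ κ → (Exponent κ ↔ Dense θ κ)) ∧
    (Exponent 0 ↔ ∀ θ : ℝ, 1 < θ → Dense θ 0) ∧
    (∀ δ : ℝ, 0 ≤ δ → δ ≤ 1 → ZeroDense δ → Exponent (δ / 4)) ∧
    ((∀ δ : ℝ, 0 < δ → ZeroDense δ) → Exponent 0) := by
  refine ⟨largeValueLaw, fun θ κ hθ hκ h => exponent_of_dense hθ hκ h, fun θ κ hθ hθ1 hκ =>
    ⟨fun h => dense_of_exponent hθ hκ h, fun h => ?_⟩, ⟨fun h θ hθ => dense_of_exponent (by linarith)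
      le_rfl h, fun h => ?_⟩, fun δ h0 h1 h => exponent_of_zeros h0 h1 h, fun h => ?_⟩
  · have h1 := exponent_of_dense hθ hκ h
    have h2 : (1 - 1 / θ) / 4 ≤ κ := by
      have h3 : 1 ≤ 1 / θ := by rw [le_div_iff₀ hθ]; linarith
      linarith
    rwa [max_eq_left h2] at h1
  · refine exponent_closed fun κ' hκ' => ?_
    have hθ : 1 < 1 + κ' := by linarith
    refine exponent_mono ?_ (exponent_of_dense (θ := 1 + κ') (by linarith) le_rfl (h _ hθ))
    apply max_le hκ'.le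
    have h3 : 1 - 1 / (1 + κ') = κ' / (1 + κ') := by field_simp; ring
    have h4 : κ' / (1 + κ') ≤ κ' := div_le_self hκ'.le hθ.le
    rw [h3]
    linarith
  · refine exponent_closed fun κ' hκ' => ?_
    have h1 : 0 < min κ' 1 := lt_min hκ' one_pos
    refine exponent_mono ?_ (exponent_of_zeros h1.le (min_le_right _ _) (h _ h1))
    have : min κ' 1 ≤ κ' := min_le_left _ _
    linarith

end Pool.Agent.Results.MP_4e5e8a_nt.DensityCriterion
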