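import Mathlib
import Pool.Agent.W188.Ray.A5

/-!
# The Lindelöf hypothesis is decided by the values of `ζ(1/2 + it)` on one ray

* (directions) There are `C`, `T₀` such that for all `T ≥ T₀` and every direction `u`, `|u| = 1`: if
  `|ζ(1/2 + iT)| ≥ C log T` then there is a real `v` with `|v - T| ≤ C log log T` at which
  `ζ(1/2 + iv)` is a positive multiple of `u` and `|ζ(1/2 + iv)| ≥ |ζ(1/2 + iT)| / (C log T)`: the large
  values of zeta are taken, up to a factor `C log T`, with every argument, within `O(log log T)`.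
* (one ray) For every `κ ≥ 0` and every `u`, `|u| = 1`, the bound `O(t^(κ + ε))` on the critical line is
  equivalent to this bound at the points at which the value lies on the ray of `u`; for `κ = 0` this is
  the Lindelöf hypothesis.
* (real values) The Lindelöf hypothesis is equivalent to the lower bound `≥ - C t^ε`, and also to the
  upper bound `≤ C t^ε`, at the points at which `ζ(1/2 + it)` is real (zeros and Gram points).

The analytic part is `Pool.Agent.W188.Ray.directions` (helper188 of an earlier round), which no hand-in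
used: on the critical line `f = X * conj f` with `|X| = 1`, and `|X| < 1` on the right of it; a one-sided
bound at the points with `X = 1` is a bound for the real part of a quotient, and harmonic majorants
carry it to the right of the line and back.
-/

set_option autoImplicit false

open Filter Topology

namespace Pool.Agent.Results.MP_4e5e8a_nt.OneRay

/-- The zeta function on the critical line. -/
noncomputable def zeta (t : ℝ) : ℂ := riemannZeta (1 / 2 + t * Complex.I)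

/-- `|ζ(1/2 + it)| = O((1 + |t|)^(κ + ε))` for every `ε > 0`; for `κ = 0` this is the Lindelöf
hypothesis. -/
def Exponent (κ : ℝ) : Prop := ∀ ε : ℝ, 0 < ε → ∃ C : ℝ, ∀ t : ℝ, ‖zeta t‖ ≤ C * (1 + |t|) ^ (κ + ε)

/-- The same bound at the points `v ≥ 1` at which `ζ(1/2 + iv) = r u` with `r` real. -/
def RayExponent (u : ℂ) (κ : ℝ) : Prop := ∀ ε : ℝ, 0 < ε → ∃ C : ℝ, ∀ v r : ℝ, 1 ≤ v →
  zeta v = r * u → r ≤ C * v ^ (κ + ε)

lemma zeta_cont : Continuous zeta := by
  rw [continuous_iff_continuousAt]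
  intro t
  unfold zeta
  have h : (1 / 2 + (t : ℂ) * Complex.I) ≠ 1 := by
    intro h
    have := congrArg Complex.re h
    norm_num at this
  have h1 := (differentiableAt_riemannZeta h).continuousAt
  have h2 : ContinuousAt (fun t : ℝ => (1 / 2 + (t : ℂ) * Complex.I)) t := by fun_prop
  exact ContinuousAt.comp (f := fun t : ℝ => (1 / 2 + (t : ℂ) * Complex.I)) (g := riemannZeta) h1 h2

lemma zeta_neg (t : ℝ) : ‖zeta (-t)‖ = ‖zeta t‖ := by
  unfold zeta
  have e : (1 / 2 + ((-t : ℝ) : ℂ) * Complex.I) =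
      (starRingEnd ℂ) (1 / 2 + (t : ℂ) * Complex.I) := by
    simp [map_add, map_mul, map_ofNat]
  rw [e, riemannZeta_conj, Complex.norm_conj]

lemma zeta_abs (t : ℝ) : ‖zeta t‖ = ‖zeta |t|‖ := by
  rcases abs_cases t with ⟨h, _⟩ | ⟨h, _⟩
  · rw [h]
  · rw [h, zeta_neg]

lemma exponent_of_large {κ : ℝ}
    (h : ∀ ε : ℝ, 0 < ε → ∃ C T₀ : ℝ, ∀ t : ℝ, T₀ ≤ t → ‖zeta t‖ ≤ C * t ^ (κ + ε)) (hκ : 0 ≤ κ) :
    Exponent κ := by
  intro ε hε
  obtain ⟨C, T₀, hC⟩ := h ε hε
  obtain ⟨B, hB⟩ := (isCompact_Icc (a := (0 : ℝ)) (b := max T₀ 0)).exists_bound_of_continuousOn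
    zeta_cont.continuousOn
  refine ⟨|C| + |B|, fun t => ?_⟩
  rw [zeta_abs]
  have h1 : 1 ≤ (1 + |t|) ^ (κ + ε) :=
    Real.one_le_rpow (by linarith [abs_nonneg t]) (by linarith)
  by_cases ht : max T₀ 0 ≤ |t|
  · have h2 := hC |t| ((le_max_left _ _).trans ht)
    have h3 : |t| ^ (κ + ε) ≤ (1 + |t|) ^ (κ + ε) :=
      Real.rpow_le_rpow (abs_nonneg t) (by linarith) (by linarith)
    calc ‖zeta |t|‖ ≤ C * |t| ^ (κ + ε) := h2
      _ ≤ |C| * |t| ^ (κ + ε) := mul_le_mul_of_nonneg_right (le_abs_self C)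
          (Real.rpow_nonneg (abs_nonneg t) _)
      _ ≤ |C| * (1 + |t|) ^ (κ + ε) := mul_le_mul_of_nonneg_left h3 (abs_nonneg C)
      _ ≤ (|C| + |B|) * (1 + |t|) ^ (κ + ε) :=
          mul_le_mul_of_nonneg_right (by linarith [abs_nonneg B]) (by linarith)
  · push Not at ht
    have h2 := hB |t| ⟨abs_nonneg t, ht.le⟩
    calc ‖zeta |t|‖ ≤ B := h2
      _ ≤ |C| + |B| := by linarith [abs_nonneg C, le_abs_self B]
      _ ≤ (|C| + |B|) * (1 + |t|) ^ (κ + ε) := le_mul_of_one_le_right (by positivity) h1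

lemma loglog_small (C : ℝ) : ∀ᶠ T : ℝ in atTop, C * Real.log (Real.log T) ≤ T / 2 := by
  have h1 : (fun T : ℝ => Real.log T) =o[atTop] fun T : ℝ => T := Real.isLittleO_log_id_atTop
  have h2 := h1.bound (c := 1 / (2 * (|C| + 1))) (by positivity)
  filter_upwards [h2, eventually_ge_atTop (Real.exp 1)] with T hT h3
  have hT0 : 0 < T := (Real.exp_pos 1).trans_le h3
  have hlog : 1 ≤ Real.log T := (Real.le_log_iff_exp_le hT0).2 h3
  have h4 : Real.log (Real.log T) ≤ Real.log T := by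
    have := Real.log_le_sub_one_of_pos (by linarith : 0 < Real.log T)
    linarith
  have h5 : 0 ≤ Real.log (Real.log T) := Real.log_nonneg hlog
  rw [Real.norm_eq_abs, Real.norm_eq_abs, abs_of_nonneg (by linarith : 0 ≤ Real.log T),
    abs_of_pos hT0] at hT
  calc C * Real.log (Real.log T) ≤ |C| * Real.log (Real.log T) :=
        mul_le_mul_of_nonneg_right (le_abs_self C) h5
    _ ≤ (|C| + 1) * Real.log T := by
        apply mul_le_mul _ h4 h5 (by positivity)
        linarith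
    _ ≤ (|C| + 1) * (1 / (2 * (|C| + 1)) * T) := mul_le_mul_of_nonneg_left hT (by positivity)
    _ = T / 2 := by field_simp

lemma exponent_of_ray {u : ℂ} (hu : ‖u‖ = 1) {κ : ℝ} (hκ : 0 ≤ κ) (h : RayExponent u κ) :
    Exponent κ := by
  obtain ⟨C, T₀, hC, hT₀, hdir⟩ := Pool.Agent.W188.Ray.directions
  refine exponent_of_large (fun ε hε => ?_) hκ
  obtain ⟨B, hB⟩ := h (ε / 2) (by linarith)
  obtain ⟨T₁, hT₁⟩ := eventually_atTop.1 (loglog_small C)
  -- `log T = O(T ^ (ε / 2))`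
  have hlo : (fun T : ℝ => Real.log T) =o[atTop] fun T : ℝ => T ^ (ε / 2) :=
    isLittleO_log_rpow_atTop (by linarith)
  obtain ⟨T₂, hT₂⟩ := eventually_atTop.1 (hlo.bound (c := 1) one_pos)
  set A : ℝ := C * (1 + |B| * 2 ^ (κ + ε / 2)) with hA
  have hA0 : 0 < A := by positivity
  refine ⟨A, max (max T₀ T₁) (max T₂ 2), fun T hT => ?_⟩
  have ha : T₀ ≤ T := (le_max_left _ _).trans ((le_max_left _ _).trans hT)
  have hb : T₁ ≤ T := (le_max_right _ _).trans ((le_max_left _ _).trans hT)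
  have hc : T₂ ≤ T := (le_max_left _ _).trans ((le_max_right _ _).trans hT)
  have hd : 2 ≤ T := (le_max_right _ _).trans ((le_max_right _ _).trans hT)
  have hT0 : 0 < T := by linarith
  have hlog0 : 0 ≤ Real.log T := Real.log_nonneg (by linarith)
  have hlog : Real.log T ≤ T ^ (ε / 2) := by
    have := hT₂ T hc
    rw [Real.norm_eq_abs, Real.norm_eq_abs, abs_of_nonneg hlog0,
      abs_of_nonneg (Real.rpow_nonneg hT0.le _), one_mul] at this
    exact this
  have hz : zeta T = riemannZeta (Pool.Agent.W188.Ray.cp T) := rfl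
  have hsplit : T ^ (κ + ε) = T ^ (ε / 2) * T ^ (κ + ε / 2) := by
    rw [← Real.rpow_add hT0]; congr 1; ring
  have h1T : 1 ≤ T ^ (κ + ε / 2) := Real.one_le_rpow (by linarith) (by linarith)
  have hp0 : 0 ≤ T ^ (ε / 2) := Real.rpow_nonneg hT0.le _
  rw [hsplit]
  by_cases hbig : C * Real.log T ≤ ‖zeta T‖
  · obtain ⟨v, r, hv, hr, hle⟩ := hdir T ha u hu hbig
    have hll := hT₁ T hb
    have hv' := abs_le.1 (hv.trans hll)
    have hv1 : 1 ≤ v := by linarith [hv'.1]
    have hv2 : v ≤ 2 * T := by linarith [hv'.2]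
    have hrB := hB v r hv1 hr
    have hvp : v ^ (κ + ε / 2) ≤ 2 ^ (κ + ε / 2) * T ^ (κ + ε / 2) := by
      rw [← Real.mul_rpow (by norm_num) hT0.le]
      exact Real.rpow_le_rpow (by linarith) hv2 (by linarith)
    have hv0 : 0 ≤ v ^ (κ + ε / 2) := Real.rpow_nonneg (by linarith) _
    have hr2 : r ≤ |B| * 2 ^ (κ + ε / 2) * T ^ (κ + ε / 2) := by
      calc r ≤ B * v ^ (κ + ε / 2) := hrB
        _ ≤ |B| * v ^ (κ + ε / 2) := mul_le_mul_of_nonneg_right (le_abs_self B) hv0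
        _ ≤ |B| * (2 ^ (κ + ε / 2) * T ^ (κ + ε / 2)) :=
            mul_le_mul_of_nonneg_left hvp (abs_nonneg B)
        _ = _ := by ring
    have hX0 : 0 ≤ |B| * 2 ^ (κ + ε / 2) * T ^ (κ + ε / 2) := by positivity
    calc ‖zeta T‖ ≤ C * Real.log T * r := hle
      _ ≤ C * Real.log T * (|B| * 2 ^ (κ + ε / 2) * T ^ (κ + ε / 2)) :=
          mul_le_mul_of_nonneg_left hr2 (by positivity)
      _ ≤ C * T ^ (ε / 2) * (|B| * 2 ^ (κ + ε / 2) * T ^ (κ + ε / 2)) := by gcongr
      _ = C * (|B| * 2 ^ (κ + ε / 2)) * (T ^ (ε / 2) * T ^ (κ + ε / 2)) := by ring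
      _ ≤ A * (T ^ (ε / 2) * T ^ (κ + ε / 2)) := by
          apply mul_le_mul_of_nonneg_right _ (by positivity)
          rw [hA]
          apply mul_le_mul_of_nonneg_left _ hC.le
          linarith
  · push Not at hbig
    calc ‖zeta T‖ ≤ C * Real.log T := hbig.le
      _ ≤ C * T ^ (ε / 2) := mul_le_mul_of_nonneg_left hlog hC.le
      _ ≤ A * T ^ (ε / 2) := by
          apply mul_le_mul_of_nonneg_right _ hp0
          rw [hA]
          have : 0 ≤ |B| * 2 ^ (κ + ε / 2) := by positivity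
          nlinarith
      _ ≤ A * (T ^ (ε / 2) * T ^ (κ + ε / 2)) :=
          mul_le_mul_of_nonneg_left (le_mul_of_one_le_right hp0 h1T) hA0.le

lemma ray_of_exponent {u : ℂ} (hu : ‖u‖ = 1) {κ : ℝ} (hκ : 0 ≤ κ) (h : Exponent κ) :
    RayExponent u κ := by
  intro ε hε
  obtain ⟨C, hC⟩ := h ε hε
  refine ⟨|C| * 2 ^ (κ + ε), fun v r hv hr => ?_⟩
  have h1 : r ≤ ‖zeta v‖ := by
    rw [hr, norm_mul, hu, mul_one, Complex.norm_real]
    exact le_abs_self r
  have h2 := hC v
  rw [abs_of_nonneg (by linarith : (0 : ℝ) ≤ v)] at h2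
  have h3 : (1 + v) ^ (κ + ε) ≤ 2 ^ (κ + ε) * v ^ (κ + ε) := by
    rw [← Real.mul_rpow (by norm_num) (by linarith)]
    exact Real.rpow_le_rpow (by linarith) (by linarith) (by linarith)
  calc r ≤ ‖zeta v‖ := h1
    _ ≤ C * (1 + v) ^ (κ + ε) := h2
    _ ≤ |C| * (1 + v) ^ (κ + ε) := mul_le_mul_of_nonneg_right (le_abs_self C)
        (Real.rpow_nonneg (by linarith) _)
    _ ≤ |C| * (2 ^ (κ + ε) * v ^ (κ + ε)) := mul_le_mul_of_nonneg_left h3 (abs_nonneg C)
    _ = _ := by ring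

lemma ray_iff {u : ℂ} (hu : ‖u‖ = 1) {κ : ℝ} (hκ : 0 ≤ κ) : Exponent κ ↔ RayExponent u κ :=
  ⟨ray_of_exponent hu hκ, exponent_of_ray hu hκ⟩

theorem result :
    (∃ C T₀ : ℝ, 0 < C ∧ 1000 ≤ T₀ ∧ ∀ T : ℝ, T₀ ≤ T → ∀ u : ℂ, ‖u‖ = 1 →
      C * Real.log T ≤ ‖zeta T‖ →
      ∃ v r : ℝ, |v - T| ≤ C * Real.log (Real.log T) ∧ zeta v = r * u ∧
        ‖zeta T‖ ≤ C * Real.log T * r) ∧
    (∀ κ : ℝ, 0 ≤ κ → ∀ u : ℂ, ‖u‖ = 1 → (Exponent κ ↔ RayExponent u κ)) ∧
    (Exponent 0 ↔ ∀ ε : ℝ, 0 < ε → ∃ C : ℝ, ∀ t : ℝ, 1 ≤ t → (zeta t).im = 0 →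
      -(C * t ^ ε) ≤ (zeta t).re) ∧
    (Exponent 0 ↔ ∀ ε : ℝ, 0 < ε → ∃ C : ℝ, ∀ t : ℝ, 1 ≤ t → (zeta t).im = 0 →
      (zeta t).re ≤ C * t ^ ε) := by
  refine ⟨Pool.Agent.W188.Ray.directions, fun κ hκ u hu => ray_iff hu hκ, ?_, ?_⟩
  · rw [ray_iff (u := -1) (by simp) le_rfl]
    constructor
    · intro h ε hε
      obtain ⟨C, hC⟩ := h ε hε
      refine ⟨C, fun t ht him => ?_⟩
      have h1 := hC t (-(zeta t).re) ht (by
        apply Complex.ext
        · simp
        · simp [him])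
      rw [zero_add] at h1
      linarith
    · intro h ε hε
      obtain ⟨C, hC⟩ := h ε hε
      refine ⟨C, fun v r hv hr => ?_⟩
      have h1 := hC v hv (by rw [hr]; simp)
      rw [hr] at h1
      simp only [mul_neg, mul_one, Complex.neg_re, Complex.ofReal_re, neg_le_neg_iff] at h1
      rw [zero_add]
      exact h1
  · rw [ray_iff (u := 1) (by simp) le_rfl]
    constructor
    · intro h ε hε
      obtain ⟨C, hC⟩ := h ε hε
      refine ⟨C, fun t ht him => ?_⟩
      have h1 := hC t (zeta t).re ht (by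
        apply Complex.ext
        · simp
        · simp [him])
      rw [zero_add] at h1
      exact h1
    · intro h ε hε
      obtain ⟨C, hC⟩ := h ε hε
      refine ⟨C, fun v r hv hr => ?_⟩
      have h1 := hC v hv (by rw [hr]; simp)
      rw [hr] at h1
      simp only [mul_one, Complex.ofReal_re] at h1
      rw [zero_add]
      exact h1

end Pool.Agent.Results.MP_4e5e8a_nt.OneRay
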