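import Mathlib
import Pool.Agent.TH804.SS9

/-!
# Zeros of the sections of the zeta series and the Lindelöf hypothesis

Turán (1948) showed that the Riemann hypothesis would follow if the partial sums (sections)
`ζ_N(s) = ∑_{n ≤ N} n^(-s)` had no zeros in `Re s > 1` (or in a slightly smaller half-plane); Montgomery (1983) showed
that they do have such zeros.  Backlund (1918): the Lindelöf hypothesis holds if and only if, for each `δ > 0`, `ζ` has
`o(log T)` zeros in `Re s ≥ 1/2 + δ`, `|Im s - T| ≤ 1`.  Here we show that the zeros of the sections decide the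
Lindelöf hypothesis, with a sharp transition in the length of the sections.

For `δ, H > 0` let `n(N, T)` be the number of the zeros of `ζ_N` in `Re s ≥ 1/2 + δ`, `|Im s - T| ≤ H`, counted with
multiplicity, and let `H ≥ 3/2`.

(1) (Local, unconditional.)  Let `θ > 1/2` and `A, ε, η > 0`.  There are `δ, κ > 0` and `T₀` such that for `T ≥ T₀` and
`T^θ ≤ N ≤ T^A`: if `n(N, T') ≤ κ log T` for `|T' - T| ≤ T^η`, then `|ζ(1/2 + iT)| ≤ T^ε`.

(2) Let `1/2 < θ ≤ 2`.  The following are equivalent: the Lindelöf hypothesis; `n(N, T) = o(log T)` for each `δ > 0` and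
one section `N = [T^θ]` for each height `T`; `n(N, T) = o(log T)` for each `δ > 0`, uniformly for all `1 ≤ N ≤ T^θ`.

(3) If `θ > 2`, then the last two statements are false.

Proof.  The length `N` is only slightly larger than `T^(1/2)` in the main case, so that `ζ_N` is not an approximation
to `ζ` on the left of the line `Re s = 1`.  If `ζ_N` has few zeros, then Backlund's argument (three circles theorem for
`log ζ_N`, from the disc around `2 + iT` where `ζ_N` has no zeros) gives `|ζ_N(s)| ≤ T^ε` for `Re s ≥ 1/2 + 2δ`.  The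
sums in the smooth symmetric approximate functional equation for `ζ(1/2 + iT)` have length at most `T^(1/2 + η)`, and they are
weighted means of the values `ζ_N(1/2 + 2δ + iT + iy)` of the one section `ζ_N`, essentially with `|y| ≤ T^η`; for `θ ≤ 2` one may
pass from the section at the height `T + y` to the section at the height `T`.  Conversely LH gives
`|ζ_N(s)| ≤ T^ε` for `N ≤ T²` by a contour integral with a smooth cutoff of width `T^(-3)` in `log n`, and Jensen's formula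
applies.  For `θ > 2` the term `N^(1-s)/(s-1)` in the Euler–Maclaurin formula is a power of `T` on some line `Re s = 1/2 + 2δ`, so that few
zeros would imply that `|ζ(s)|` is large on the whole line, which contradicts the mean value theorem.
-/

set_option autoImplicit false

namespace Pool.Agent.Results.MP_4e5e8a_nt.SectionsLindelof

/-- The section `ζ_N(s) = ∑_{n ≤ N} n^(-s)`. -/
noncomputable def sec (N : ℕ) (s : ℂ) : ℂ := ∑ n ∈ Finset.range N, ((n : ℂ) + 1) ^ (-s)

/-- At most `n` zeros of `ζ_N` in `Re s ≥ 1/2 + δ`, `|Im s - T| ≤ H`, counted with multiplicity: this holds for every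
finite set of such zeros. -/
def FewZeros (N : ℕ) (δ H T n : ℝ) : Prop := ∀ S : Finset ℂ,
  (∀ s ∈ S, 1 / 2 + δ ≤ s.re ∧ |s.im - T| ≤ H ∧ sec N s = 0) →
    ∑ s ∈ S, (analyticOrderNatAt (sec N) s : ℝ) ≤ n

/-- The Lindelöf hypothesis: `ζ(1/2 + it) = O(|t|^ε)` for `|t| ≥ 1`, for every `ε > 0`. -/
def Lindelof : Prop := ∀ ε : ℝ, 0 < ε → ∃ C : ℝ, ∀ t : ℝ, 1 ≤ |t| →
  ‖riemannZeta (1 / 2 + t * Complex.I)‖ ≤ C * |t| ^ ε

/-- For each `δ > 0`: one section `ζ_N`, `N = [T^θ]`, for each height `T`, has `o(log T)` zeros. -/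
def OneSection (θ H : ℝ) : Prop := ∀ δ : ℝ, 0 < δ → ∀ ε : ℝ, 0 < ε → ∃ T₀ : ℝ, ∀ T : ℝ, T₀ ≤ T →
  FewZeros ⌊T ^ θ⌋₊ δ H T (ε * Real.log T)

/-- For each `δ > 0`: all the sections `ζ_N`, `1 ≤ N ≤ T^θ`, have `o(log T)` zeros, uniformly. -/
def AllSections (θ H : ℝ) : Prop := ∀ δ : ℝ, 0 < δ → ∀ ε : ℝ, 0 < ε → ∃ T₀ : ℝ, ∀ T : ℝ, T₀ ≤ T →
  ∀ N : ℕ, 1 ≤ N → (N : ℝ) ≤ T ^ θ → FewZeros N δ H T (ε * Real.log T)

theorem result :
    -- (1) few zeros of one section near the height `T` imply a small value of zeta at this height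
    (∀ θ A ε η : ℝ, 1 / 2 < θ → 1 ≤ A → 0 < ε → 0 < η → ∃ δ κ T₀ : ℝ, 0 < δ ∧ 0 < κ ∧ ∀ T : ℝ, T₀ ≤ T →
      ∀ N : ℕ, T ^ θ ≤ N → (N : ℝ) ≤ T ^ A →
        (∀ T' : ℝ, |T' - T| ≤ T ^ η → FewZeros N δ (3 / 2) T' (κ * Real.log T)) →
          ‖riemannZeta (1 / 2 + (T : ℂ) * Complex.I)‖ ≤ T ^ ε) ∧
    -- (2) equivalence for `1/2 < θ ≤ 2`
    (∀ θ H : ℝ, 1 / 2 < θ → θ ≤ 2 → 3 / 2 ≤ H →
      (Lindelof ↔ OneSection θ H) ∧ (Lindelof ↔ AllSections θ H)) ∧
    -- (3) failure for `θ > 2`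
    (∀ θ H : ℝ, 2 < θ → 3 / 2 ≤ H → ¬ OneSection θ H ∧ ¬ AllSections θ H) := by
  refine ⟨fun θ A ε η hθ hA hε hη => ?_, fun θ H hθ h2 hH => ?_, fun θ H hθ hH => ?_⟩
  · exact Pool.Agent.TH804.SS.local_small hθ hA hε hη
  · exact (Pool.Agent.TH804.SS.main hθ hH).1 h2
  · exact (Pool.Agent.TH804.SS.main (by linarith) hH).2 hθ

end Pool.Agent.Results.MP_4e5e8a_nt.SectionsLindelof
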