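import Mathlib
import Pool.Agent.TH804.SB7

/-!
# A Speiser-type theorem for the Lindelöf hypothesis

Speiser (1934): the Riemann hypothesis holds if and only if `ζ'` has no zeros in `0 < Re s < 1/2`.  Backlund (1918): the
Lindelöf hypothesis holds if and only if `ζ` has `o(log T)` zeros in `Re s > 1/2 + δ`, `|Im s - T| ≤ 1`, for each
`δ > 0` (equivalently: in `0 < Re s < 1/2 - δ`).  Here we count, to the left of the critical line, the zeros of the
derivatives, of all nonzero differential operators `P(D)ζ = ∑ p_i ζ^(i)` with constant coefficients, and the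
`a`-points of these functions.

For `P ≠ 0` and complex `a`, and for each `δ > 0`, let `N(T) = N(P, a, δ; T)` be the number of the points `s` with
`P(D)ζ(s) = a`, `0 < Re s ≤ 1/2 - δ`, `|Im s - T| ≤ 1`, counted with multiplicity.

(1) (Local, unconditional.)  For each `ε > 0` there are `δ, κ > 0` and `W, T₀` such that for `|T| ≥ T₀`: if
`N(T') ≤ κ log |T|` for `|T' - T| ≤ W`, then `|ζ(1/2 + iT)| ≤ |T|^ε`.

(2) (Local, unconditional.)  For all `ε, δ > 0` there are `κ > 0` and `W, T₀` such that for `|T| ≥ T₀`: if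
`|ζ(1/2 + iT')| ≤ |T|^κ` for `|T' - T| ≤ W`, then `N(T) ≤ ε log |T|`.

(3) The Lindelöf hypothesis holds if and only if `N(T) = o(log |T|)` for each `δ > 0`.

So for the functions `P(D)ζ - a` with arbitrary `P ≠ 0` and `a` the zeros to the left of the critical line are rare at
the same heights.

Proof.  (2) follows from the local three lines theorem, Cauchy's estimates and Jensen's formula; the lower bound for
`P(D)ζ` on the left of the line `Re s = 0` comes from the functional equation and `ζ'/ζ(s) ∼ -log |T|` there.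
(1) By the functional equation `P(D)ζ(s) exp(s log T)` is of size `T^(o(1))` on the left of `Re s = 0`.  If it has few
zeros in `Re s ≤ 1/2 - δ` then, by a local form of Backlund's argument (three circles theorem for the logarithm), it
is of size `T^(o(1))` in the whole region.  It remains to go back from `P(D)ζ` to `ζ` on the critical line; note that
one cannot integrate from the left, where `ζ` is large.  Suppose that `|ζ(1/2 + iT)| ≥ T^ε` and take a (weighted) maximum
`M` of `|ζ(1/2 + it)|` near `T`, at `t₀`.  By the three lines theorem `|ζ(1/2 + x + it)| ≤ M T^(-εx/2)` for `x > 0` and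
`t` near `t₀`.  If `(D - λ)ζ` were small near `1/2 + it₀`, then `ζ(1/2 + x + it₀)` would be almost constant (up to the
factor `e^(λx)`) in `x`, a contradiction.  Repeating this for the factors of `P`, `P(D)ζ` is almost as large as `M` at some
point close to `1/2 + it₀`, and this contradicts the bound on the left, by the three circles theorem.
-/

set_option autoImplicit false

open Polynomial

namespace Pool.Agent.Results.MP_4e5e8a_nt.SpeiserLindelof

/-- `P(D)ζ = ∑ p_i ζ^(i)`, for `P = ∑ p_i X^i`. -/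
noncomputable def opZeta (P : ℂ[X]) (s : ℂ) : ℂ := P.sum fun i c => c * iteratedDeriv i riemannZeta s

/-- At most `n` points `s` with `P(D)ζ(s) = a`, `0 < Re s ≤ 1/2 - δ`, `|Im s - T| ≤ 1`, counted with multiplicity
(the order of the zero of `P(D)ζ - a`): this holds for every finite set of such points. -/
def FewPts (P : ℂ[X]) (a : ℂ) (δ T n : ℝ) : Prop := ∀ S : Finset ℂ,
  (∀ s ∈ S, 0 < s.re ∧ s.re ≤ 1 / 2 - δ ∧ |s.im - T| ≤ 1 ∧ opZeta P s = a) →
    ∑ s ∈ S, (analyticOrderNatAt (fun s => opZeta P s - a) s : ℝ) ≤ n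

/-- The Lindelöf hypothesis: `ζ(1/2 + it) = O(|t|^ε)` for `|t| ≥ 1`, for every `ε > 0`. -/
def Lindelof : Prop := ∀ ε : ℝ, 0 < ε → ∃ C : ℝ, ∀ t : ℝ, 1 ≤ |t| →
  ‖riemannZeta (1 / 2 + t * Complex.I)‖ ≤ C * |t| ^ ε

theorem result (P : ℂ[X]) (hP : P ≠ 0) (a : ℂ) :
    -- (1) few points imply small values
    (∀ ε : ℝ, 0 < ε → ∃ δ κ W T₀ : ℝ, 0 < δ ∧ 0 < κ ∧ ∀ T : ℝ, T₀ ≤ |T| →
      (∀ T' : ℝ, |T' - T| ≤ W → FewPts P a δ T' (κ * Real.log |T|)) →
        ‖riemannZeta (1 / 2 + T * Complex.I)‖ ≤ |T| ^ ε) ∧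
    -- (2) small values imply few points
    (∀ ε δ : ℝ, 0 < ε → 0 < δ → ∃ κ W T₀ : ℝ, 0 < κ ∧ ∀ T : ℝ, T₀ ≤ |T| →
      (∀ T' : ℝ, |T' - T| ≤ W → ‖riemannZeta (1 / 2 + T' * Complex.I)‖ ≤ |T| ^ κ) →
        FewPts P a δ T (ε * Real.log |T|)) ∧
    -- (3) the Lindelöf hypothesis
    (Lindelof ↔ ∀ δ : ℝ, 0 < δ → ∀ ε : ℝ, 0 < ε → ∃ T₀ : ℝ, ∀ T : ℝ, T₀ ≤ |T| →
      FewPts P a δ T (ε * Real.log |T|)) := by
  refine ⟨fun ε hε => ?_, fun ε δ hε hδ => ?_, ?_⟩
  · exact Pool.Agent.TH804.SB.small_of_few hP a hε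
  · exact Pool.Agent.TH804.SB.few_of_small' hP a hε hδ
  · exact Pool.Agent.TH804.SB.LH_iff hP a

end Pool.Agent.Results.MP_4e5e8a_nt.SpeiserLindelof
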